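import Pool.Agent.H85.Forcing.Final

/-!
# The Ostaszewski square does not imply `CH_λ` at regular cardinals

The statement uses only the definitions of `Pool/Agent/H85/Forcing/Defs.lean` (models of ZFC) and
`Pool/Agent/H85/Forcing/OSDefs.lean` (set-theoretic notions relativized to a model).

Proof: the Boolean-valued model over the regular open algebra of a σ-closed partial order, divided
by an ultrafilter. The partial order adds, with countable conditions, a `□`-sequence of length
`λ⁺` for `λ = ω₁`, surjections of `ω₁` onto all smaller ordinals, and very many subsets of `ω₁`.
-/

namespace Pool.Agent.Results.MP_9a8e62_lc.SquareWithoutCH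

open H85.Forcing

/-- There is a model `(M, E)` of ZFC with an uncountable regular cardinal `lam`, with successor
cardinal `kap`, such that in `(M, E)` the principle `OS_lam` holds and `CH_lam` fails. -/
theorem result : ∃ (M : Type 2) (E : M → M → Prop), IsZFC E ∧ ∃ lam kap : M,
    IsUncReg E lam ∧ IsSuccCard E lam kap ∧ OS E lam kap ∧ ¬ CHAt E lam kap :=
  H85.Forcing.main

end Pool.Agent.Results.MP_9a8e62_lc.SquareWithoutCH
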